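import Pool.Agent.Helper19.HN.St

/-! # HN module SUR: an enumeration of `hodPow c` -/

namespace Pool.Agent.Helper48.HN.SUR

open Ordinal Cardinal ZFSet Order Pool.Agent.Helper73.HODC Pool.Agent.Helper73.HM
open Pool.Agent.Helper73.HE Pool.Agent.Helper73.HU Pool.Agent.Helper19.HN

/-- an ordinal below `(succ c).ord` injects into `c.ord` -/
theorem exists_inj {c : Cardinal.{0}} {j : Ordinal.{0}} (hj : j < (Order.succ c).ord) :
    ∃ G : Ordinal.{0} → Ordinal.{0}, (∀ k < j, G k < c.ord) ∧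
      ∀ k < j, ∀ k' < j, G k = G k' → k = k' := by
  classical
  have h1 : j.card ≤ c := by
    have h2 : j.card < Order.succ c := Cardinal.lt_ord.1 hj
    exact Order.lt_succ_iff.1 h2
  have h3 : Cardinal.mk j.ToType ≤ Cardinal.mk c.ord.ToType := by
    rw [mk_toType, mk_toType, Cardinal.card_ord]
    exact h1
  obtain ⟨f⟩ := Cardinal.le_def _ _ |>.1 h3
  refine ⟨fun k => if h : k < j then ((ToType.mk (o := c.ord)).symm (f (ToType.mk ⟨k, h⟩))).1
    else 0, fun k hk => ?_, fun k hk k' hk' h => ?_⟩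
  · simp only [dif_pos hk]
    exact ((ToType.mk (o := c.ord)).symm (f (ToType.mk ⟨k, hk⟩))).2
  · simp only [dif_pos hk, dif_pos hk'] at h
    have h4 := (ToType.mk (o := c.ord)).symm.injective (Subtype.ext h)
    have h5 := ToType.mk.injective (f.injective h4)
    exact congrArg Subtype.val h5

theorem exists_sur {c : Cardinal.{0}} (h : Few (Order.succ c).ord (hodPow c.ord)) :
    ∃ X, Sur c.ord X := by
  classical
  obtain ⟨j, hj, e, he⟩ := h
  obtain ⟨G, hG1, hG2⟩ := exists_inj hj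
  have h0 : ordSet c.ord ∅ ∈ hodPow c.ord := by
    refine mem_hodPow.2 ⟨ordSet_sub _ _, od_ordSet ?_ _⟩
    exact (DP.const False).congr fun v => by simp
  refine ⟨fun k => if h : ∃ k' < j, G k' = k ∧ e k' ∈ hodPow c.ord then e h.choose
    else ordSet c.ord ∅, fun k _ => ?_, fun x hx => ?_⟩
  · by_cases h : ∃ k' < j, G k' = k ∧ e k' ∈ hodPow c.ord
    · simp only [dif_pos h]
      exact h.choose_spec.2.2
    · simp only [dif_neg h]
      exact h0
  · obtain ⟨k, hk, hkx⟩ := he x hx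
    refine ⟨G k, hG1 k hk, ?_⟩
    have h : ∃ k' < j, G k' = G k ∧ e k' ∈ hodPow c.ord := ⟨k, hk, rfl, hkx.symm ▸ hx⟩
    simp only [dif_pos h]
    rw [← hG2 k hk _ h.choose_spec.1 h.choose_spec.2.1.symm]
    exact hkx

theorem sur (h : StSM) : StSUR := by
  intro κ θ c hAT hκ _ hc hθ
  have hr : (Order.succ c).IsRegular := Cardinal.isRegular_succ hc.aleph0_le
  have hω : ℵ₀ < Order.succ c := hc.aleph0_le.trans_lt (Order.lt_succ c)
  have hcof : (Order.succ c).ord.cof = Order.succ c := hr.cof_ord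
  obtain ⟨A, hA, -, -⟩ := hAT (Order.succ c).ord {a | a.cof = ℵ₀} {a | a.cof = ℵ₀}
    (by rw [hcof]; exact hθ.trans (Order.lt_succ c)) (DP.of (dfn_cof_omega 0))
    (stat_cof_omega (by rw [hcof]; exact hω)) (fun _ h => h) (fun a ha => by
      have h1 : a.cof = ℵ₀ := ha
      rw [h1]
      exact hκ)
  exact exists_sur (h (Order.succ c) A hr hA c.ord (Cardinal.ord_lt_ord.2 (Order.lt_succ c)))

end Pool.Agent.Helper48.HN.SUR
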